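import Pool.Agent.Work.MP_db9399_lt.Base
import Pool.Agent.Work.MP_db9399_co.Konig

set_option autoImplicit false
set_option linter.unusedSectionVars false

namespace Pool.Agent.Work.MP_db9399_lt.helper20

open Finset Classical
open Pool.Agent.Work.MP_db9399_all (nb)
open Pool.Agent.Work.MP_db9399_nc (nn PEC Mts mem_nb mem_nn)
open Pool.Agent.Work.MP_db9399_lt

universe u

theorem stmt_KOEN : Stmt_KOEN.{u} := by
  intro V _ G sd Cl hbip hdeg
  set S : Finset (V × V) :=
    univ.filter (fun e => G.Adj e.1 e.2 ∧ sd e.1 = true ∧ sd e.2 = false) with hS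
  have hmem : ∀ e : V × V, e ∈ S ↔ G.Adj e.1 e.2 ∧ sd e.1 = true ∧ sd e.2 = false := by
    intro e; simp [hS]
  have hx : ∀ v, (S.filter (fun e => e.1 = v)).card ≤ Cl.card := by
    intro v
    refine le_trans ?_ (hdeg v)
    refine Finset.card_le_card_of_injOn (fun e => e.2) ?_ ?_
    · intro e he
      have he' := Finset.mem_filter.1 (Finset.mem_coe.1 he)
      have h1 := (hmem e).1 he'.1
      have h2 : e.2 ∈ nb G v := by
        rw [mem_nb, ← he'.2]; exact h1.1
      exact h2
    · intro e he f hf hef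
      have he' := Finset.mem_filter.1 (Finset.mem_coe.1 he)
      have hf' := Finset.mem_filter.1 (Finset.mem_coe.1 hf)
      exact Prod.ext (he'.2.trans hf'.2.symm) hef
  have hy : ∀ v, (S.filter (fun e => e.2 = v)).card ≤ Cl.card := by
    intro v
    refine le_trans ?_ (hdeg v)
    refine Finset.card_le_card_of_injOn (fun e => e.1) ?_ ?_
    · intro e he
      have he' := Finset.mem_filter.1 (Finset.mem_coe.1 he)
      have h1 := (hmem e).1 he'.1
      have h2 : e.1 ∈ nb G v := by
        rw [mem_nb, ← he'.2]; exact h1.1.symm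
      exact h2
    · intro e he f hf hef
      have he' := Finset.mem_filter.1 (Finset.mem_coe.1 he)
      have hf' := Finset.mem_filter.1 (Finset.mem_coe.1 hf)
      exact Prod.ext hef (he'.2.trans hf'.2.symm)
  obtain ⟨κ, h1, h2⟩ := _root_.MP_db9399_co.konig (fun e : V × V => e.1) (fun e => e.2) Cl.card S
    (fun v => by convert hx v) (fun v => by convert hy v)
  -- transport of the colours
  let c : ℕ → ℕ := fun k => if h : k < Cl.card then (Cl.equivFin.symm ⟨k, h⟩ : ℕ) else 0
  have hc1 : ∀ k, k < Cl.card → c k ∈ Cl := by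
    intro k hk
    simp only [c, dif_pos hk]
    exact (Cl.equivFin.symm ⟨k, hk⟩).2
  have hc2 : ∀ k l, k < Cl.card → l < Cl.card → c k = c l → k = l := by
    intro k l hk hl h
    simp only [c, dif_pos hk, dif_pos hl] at h
    have h3 := Cl.equivFin.symm.injective (Subtype.ext h)
    exact congrArg Fin.val h3
  let t : V → V → ℕ := fun v w =>
    if sd v = true ∧ sd w = false then c (κ (v, w)) else
      if sd w = true ∧ sd v = false then c (κ (w, v)) else 0
  have ht1 : ∀ v w, sd v = true → sd w = false → t v w = c (κ (v, w)) := by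
    intro v w hv hw
    simp only [t, hv, hw, and_self, if_true]
  have ht2 : ∀ v w, sd v = false → sd w = true → t v w = c (κ (w, v)) := by
    intro v w hv hw
    simp [t, hv, hw]
  have hcase : ∀ v w, G.Adj v w → (sd v = true ∧ sd w = false) ∨ (sd v = false ∧ sd w = true) := by
    intro v w hvw
    have := hbip v w hvw
    cases hv : sd v <;> cases hw : sd w <;> simp_all
  refine ⟨t, ⟨?_, ?_, ?_⟩⟩
  · intro v w
    simp only [t]
    by_cases h3 : sd v = true ∧ sd w = false
    · have h4 : ¬ (sd w = true ∧ sd v = false) := by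
        rintro ⟨h5, h6⟩; rw [h3.1] at h6; exact absurd h6 (by decide)
      rw [if_pos h3, if_neg h4, if_pos h3]
    · rw [if_neg h3]
      by_cases h4 : sd w = true ∧ sd v = false
      · rw [if_pos h4, if_pos h4]
      · rw [if_neg h4, if_neg h4, if_neg h3]
  · intro v w hvw
    rcases hcase v w hvw with ⟨hv, hw⟩ | ⟨hv, hw⟩
    · rw [ht1 v w hv hw]
      exact hc1 _ (h1 _ ((hmem (v, w)).2 ⟨hvw, hv, hw⟩))
    · rw [ht2 v w hv hw]
      exact hc1 _ (h1 _ ((hmem (w, v)).2 ⟨hvw.symm, hw, hv⟩))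
  · intro v w hw w' hw' heq
    have hw1 : G.Adj v w := mem_nb.1 (Finset.mem_coe.1 hw)
    have hw2 : G.Adj v w' := mem_nb.1 (Finset.mem_coe.1 hw')
    by_contra hne
    rcases hcase v w hw1 with ⟨hv, hw3⟩ | ⟨hv, hw3⟩
    · rcases hcase v w' hw2 with ⟨_, hw4⟩ | ⟨hv', _⟩
      · rw [ht1 v w hv hw3, ht1 v w' hv hw4] at heq
        have m1 := (hmem (v, w)).2 ⟨hw1, hv, hw3⟩
        have m2 := (hmem (v, w')).2 ⟨hw2, hv, hw4⟩
        have h5 := hc2 _ _ (h1 _ m1) (h1 _ m2) heq
        exact h2 _ m1 _ m2 (fun h => hne (congrArg Prod.snd h)) (Or.inl rfl) h5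
      · rw [hv] at hv'; exact absurd hv' (by decide)
    · rcases hcase v w' hw2 with ⟨hv', _⟩ | ⟨_, hw4⟩
      · rw [hv] at hv'; exact absurd hv' (by decide)
      · rw [ht2 v w hv hw3, ht2 v w' hv hw4] at heq
        have m1 := (hmem (w, v)).2 ⟨hw1.symm, hw3, hv⟩
        have m2 := (hmem (w', v)).2 ⟨hw2.symm, hw4, hv⟩
        have h5 := hc2 _ _ (h1 _ m1) (h1 _ m2) heq
        exact h2 _ m1 _ m2 (fun h => hne (congrArg Prod.fst h)) (Or.inr rfl) h5

end Pool.Agent.Work.MP_db9399_lt.helper20
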