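import Pool.Agent.Work.MP_db9399_lt.Base

set_option autoImplicit false
set_option linter.unusedSectionVars false

namespace Pool.Agent.Work.MP_db9399_lt.helper20

open Finset Classical
open Pool.Agent.Work.MP_db9399_lt

theorem target_split (W : Finset ℕ) (w : Fin 3 → ℕ) (h : w 0 + w 1 + w 2 = W.card) :
    ∃ A : Fin 3 → Finset ℕ, (∀ i, A i ⊆ W) ∧ (∀ i j, i ≠ j → Disjoint (A i) (A j)) ∧
      (∀ i, (A i).card = w i) ∧ ∀ b ∈ W, ∃ i, b ∈ A i := by
  obtain ⟨A0, hA0, hc0⟩ := Finset.exists_subset_card_eq (s := W) (n := w 0) (by omega)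
  have h1 : (W \ A0).card = w 1 + w 2 := by
    rw [Finset.card_sdiff_of_subset hA0]; omega
  obtain ⟨A1, hA1, hc1⟩ := Finset.exists_subset_card_eq (s := W \ A0) (n := w 1) (by omega)
  have h2 : ((W \ A0) \ A1).card = w 2 := by
    rw [Finset.card_sdiff_of_subset hA1]; omega
  have d01 : Disjoint A0 A1 := by
    rw [Finset.disjoint_left]; intro b hb hb'
    exact (Finset.mem_sdiff.1 (hA1 hb')).2 hb
  have d02 : Disjoint A0 ((W \ A0) \ A1) := by
    rw [Finset.disjoint_left]; intro b hb hb'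
    exact (Finset.mem_sdiff.1 (Finset.mem_sdiff.1 hb').1).2 hb
  have d12 : Disjoint A1 ((W \ A0) \ A1) := by
    rw [Finset.disjoint_left]; intro b hb hb'
    exact (Finset.mem_sdiff.1 hb').2 hb
  refine ⟨![A0, A1, (W \ A0) \ A1], ?_, ?_, ?_, ?_⟩
  · intro i
    fin_cases i
    · exact hA0
    · exact hA1.trans Finset.sdiff_subset
    · exact Finset.sdiff_subset.trans Finset.sdiff_subset
  · intro i j hij
    fin_cases i <;> fin_cases j
    · exact absurd rfl hij
    · exact d01
    · exact d02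
    · exact d01.symm
    · exact absurd rfl hij
    · exact d12
    · exact d02.symm
    · exact d12.symm
    · exact absurd rfl hij
  · intro i
    fin_cases i
    · exact hc0
    · exact hc1
    · exact h2
  · intro b hb
    by_cases h0 : b ∈ A0
    · exact ⟨0, h0⟩
    · by_cases h1' : b ∈ A1
      · exact ⟨1, h1'⟩
      · exact ⟨2, Finset.mem_sdiff.2 ⟨Finset.mem_sdiff.2 ⟨hb, h0⟩, h1'⟩⟩

/-- arithmetic: the number `n` is a sum of numbers `w i ≤ cap i` with the parities of `cap i` -/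
theorem target_arith (cap : Fin 3 → ℕ) (n : ℕ) (h1 : n ≤ cap 0 + cap 1 + cap 2)
    (h2 : (n + (cap 0 + cap 1 + cap 2)) % 2 = 0)
    (h3 : cap 0 % 2 + cap 1 % 2 + cap 2 % 2 ≤ n) :
    ∃ w : Fin 3 → ℕ, w 0 + w 1 + w 2 = n ∧ ∀ i, w i ≤ cap i ∧ (w i + cap i) % 2 = 0 := by
  -- K pairs have to be distributed
  obtain ⟨K, hK⟩ : ∃ K, n = cap 0 % 2 + cap 1 % 2 + cap 2 % 2 + 2 * K :=
    ⟨(n - (cap 0 % 2 + cap 1 % 2 + cap 2 % 2)) / 2, by omega⟩
  obtain ⟨q0, hq0⟩ : ∃ q0, q0 = min (cap 0 / 2) K := ⟨_, rfl⟩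
  obtain ⟨q1, hq1⟩ : ∃ q1, q1 = min (cap 1 / 2) (K - q0) := ⟨_, rfl⟩
  have hq0' : q0 ≤ cap 0 / 2 ∧ q0 ≤ K ∧ (q0 = cap 0 / 2 ∨ q0 = K) := by
    rcases le_total (cap 0 / 2) K with h | h
    · rw [min_eq_left h] at hq0; omega
    · rw [min_eq_right h] at hq0; omega
  have hq1' : q1 ≤ cap 1 / 2 ∧ q1 ≤ K - q0 ∧ (q1 = cap 1 / 2 ∨ q1 = K - q0) := by
    rcases le_total (cap 1 / 2) (K - q0) with h | h
    · rw [min_eq_left h] at hq1; omega
    · rw [min_eq_right h] at hq1; omega
  refine ⟨![cap 0 % 2 + 2 * q0, cap 1 % 2 + 2 * q1, cap 2 % 2 + 2 * (K - q0 - q1)], ?_, ?_⟩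
  · simp only [Matrix.cons_val_zero, Matrix.cons_val_one, Matrix.cons_val]
    omega
  · intro i
    fin_cases i
    · change cap 0 % 2 + 2 * q0 ≤ cap 0 ∧ (cap 0 % 2 + 2 * q0 + cap 0) % 2 = 0
      omega
    · change cap 1 % 2 + 2 * q1 ≤ cap 1 ∧ (cap 1 % 2 + 2 * q1 + cap 1) % 2 = 0
      omega
    · change cap 2 % 2 + 2 * (K - q0 - q1) ≤ cap 2 ∧
        (cap 2 % 2 + 2 * (K - q0 - q1) + cap 2) % 2 = 0
      omega

theorem stmt_TARGET : Stmt_TARGET := by
  intro Q Wr cap hWQ hne hle hev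
  rw [Fin.sum_univ_three] at hle hev
  rw [Nat.even_iff] at hev
  by_cases hR : cap 0 % 2 + cap 1 % 2 + cap 2 % 2 ≤ Wr.card
  · obtain ⟨w, hw, hw'⟩ := target_arith cap Wr.card hle hev hR
    obtain ⟨A, hA1, hA2, hA3, hA4⟩ := target_split Wr w hw
    obtain ⟨τ, hτ⟩ : ∃ τ : ℕ → Fin 3 → Prop, ∀ b i, τ b i ↔ b ∈ A i := ⟨_, fun _ _ => Iff.rfl⟩
    refine ⟨τ, ?_, ?_⟩
    · intro b _
      constructor
      · intro ho
        have hpos : 0 < (univ.filter (fun i => τ b i)).card := by
          obtain ⟨k, hk⟩ := ho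
          rw [hk]; exact Nat.succ_pos _
        obtain ⟨i, hi⟩ := Finset.card_pos.1 hpos
        exact hA1 i ((hτ b i).1 (Finset.mem_filter.1 hi).2)
      · intro hb
        obtain ⟨i, hi⟩ := hA4 b hb
        have : (univ.filter (fun i => τ b i)) = {i} := by
          ext j
          simp only [Finset.mem_filter, Finset.mem_univ, true_and, Finset.mem_singleton, hτ]
          constructor
          · intro hj
            by_contra hij
            exact Finset.disjoint_left.1 (hA2 j i hij) hj hi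
          · rintro rfl; exact hi
        rw [this, Finset.card_singleton]
        exact odd_one
    · intro i
      have : Q.filter (fun b => τ b i) = A i := by
        ext b
        simp only [Finset.mem_filter, hτ]
        exact ⟨fun h => h.2, fun h => ⟨hWQ (hA1 i h), h⟩⟩
      rw [this, hA3 i, Nat.even_iff]
      exact hw' i
  · -- `(|Wr|, R) = (0, 2)` or `(1, 3)`
    push Not at hR
    obtain ⟨b0, hb0, hb1⟩ : ∃ b0 ∈ Q, ∀ b ∈ Wr, b = b0 := by
      by_cases hW : Wr = ∅
      · obtain ⟨b, hb⟩ := hne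
        exact ⟨b, hb, fun b' hb' => by rw [hW] at hb'; simp at hb'⟩
      · obtain ⟨b, hb⟩ := Finset.nonempty_iff_ne_empty.2 hW
        refine ⟨b, hWQ hb, fun b' hb' => ?_⟩
        have hc : Wr.card ≤ 1 := by omega
        exact Finset.card_le_one.1 hc _ hb' _ hb
    have hcardW : Wr.card = 1 ↔ b0 ∈ Wr := by
      constructor
      · intro h
        obtain ⟨c, hc⟩ := Finset.card_eq_one.1 h
        have : c ∈ Wr := by rw [hc]; simp
        rw [← hb1 c this]; exact this
      · intro h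
        rw [Finset.card_eq_one]
        refine ⟨b0, ?_⟩
        ext c
        simp only [Finset.mem_singleton]
        exact ⟨fun hc => hb1 c hc, fun hc => hc ▸ h⟩
    have hR2 : (univ.filter (fun i : Fin 3 => cap i % 2 = 1)).card =
        cap 0 % 2 + cap 1 % 2 + cap 2 % 2 := by
      rw [Finset.card_filter, Fin.sum_univ_three]
      have h : ∀ i, (if cap i % 2 = 1 then 1 else 0) = cap i % 2 := by
        intro i
        split_ifs with h
        · exact h.symm
        · omega
      rw [h, h, h]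
    obtain ⟨τ, hτ⟩ : ∃ τ : ℕ → Fin 3 → Prop, ∀ b i, τ b i ↔ b = b0 ∧ cap i % 2 = 1 :=
      ⟨_, fun _ _ => Iff.rfl⟩
    refine ⟨τ, ?_, ?_⟩
    · intro b _
      by_cases hb : b = b0
      · have : (univ.filter (fun i : Fin 3 => τ b i)) =
            univ.filter (fun i : Fin 3 => cap i % 2 = 1) := by
          ext i; simp [hτ, hb]
        rw [this, hR2, hb, ← hcardW, Nat.odd_iff]
        omega
      · have : (univ.filter (fun i : Fin 3 => τ b i)) = ∅ := by
          ext i; simp [hτ, hb]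
        rw [this, Finset.card_empty]
        constructor
        · intro h; exact absurd h (by decide)
        · intro h; exact absurd (hb1 b h) hb
    · intro i
      by_cases hi : cap i % 2 = 1
      · have : Q.filter (fun b => τ b i) = {b0} := by
          ext b
          simp only [Finset.mem_filter, Finset.mem_singleton, hτ]
          exact ⟨fun h => h.2.1, fun h => ⟨h ▸ hb0, h, hi⟩⟩
        rw [this, Finset.card_singleton, Nat.even_iff]
        omega
      · have : Q.filter (fun b => τ b i) = ∅ := by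
          ext b
          simp [hi, hτ]
        rw [this, Finset.card_empty, Nat.even_iff]
        omega

end Pool.Agent.Work.MP_db9399_lt.helper20
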