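import Pool.Agent.Work.MP_db9399_lt.Base

set_option autoImplicit false
set_option linter.unusedSectionVars false

namespace Pool.Agent.Work.MP_db9399_lt.helper20

open Finset Classical
open Pool.Agent.Work.MP_db9399_all (nb)
open Pool.Agent.Work.MP_db9399_nc (nn PEC Mts mem_nb mem_nn)
open Pool.Agent.Work.MP_db9399_lt

universe u

theorem card_wr_union {V : Type u} [Fintype V] (F : V → Finset ℕ) (A B : Finset ℕ)
    (h : Disjoint A B) : (wr F (A ∪ B)).card = (wr F A).card + (wr F B).card := by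
  rw [← Finset.card_union_of_disjoint]
  · congr 1
    ext b
    simp only [mem_wr, Finset.mem_union]
    tauto
  · rw [Finset.disjoint_left]
    intro b hb hb'
    exact Finset.disjoint_left.1 h (mem_wr.1 hb).1 (mem_wr.1 hb').1

theorem stmt_TGT (hT : Stmt_TARGET) : Stmt_TGT.{u} := by
  intro V _ G d x y h s F p a C0 C Q1 Q2 su sv e1 e2 N H P
  have hxh := H.xh
  have hx1 := H.x1
  have hle : ∀ i, (wr F (C i)).card ≤ (pt p i).card := by
    intro i
    have h1 : (wr F (C i)).card ≤ (C i).card := Finset.card_le_card (Finset.filter_subset _ _)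
    have h2 := P.cl i
    have h3 := H.pt_ge i
    norm_num at hxh
    omega
  -- the union
  have hcard : (wr F (range (d + 2))).card = (wr F (C 0)).card + (wr F (C 1)).card +
      (wr F (C 2)).card + (wr F (Q1 ∪ Q2)).card := by
    rw [← P.tot]
    have e : cc C ∪ Q1 ∪ Q2 = ((C 0 ∪ C 1) ∪ C 2) ∪ (Q1 ∪ Q2) := by
      simp only [cc, Finset.union_assoc]
    rw [e, card_wr_union, card_wr_union, card_wr_union]
    · exact P.dC 0 1 (by decide)
    · rw [Finset.disjoint_union_left]
      exact ⟨P.dC 0 2 (by decide), P.dC 1 2 (by decide)⟩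
    · rw [Finset.disjoint_union_left, Finset.disjoint_union_left]
      refine ⟨⟨?_, ?_⟩, ?_⟩ <;> rw [Finset.disjoint_union_right] <;>
        exact ⟨P.dC1 _, P.dC2 _⟩
  have hpar := H.par
  have hev := H.wr_ev
  have hparts := card_parts p
  have hl0 := hle 0
  have hl1 := hle 1
  have hl2 := hle 2
  obtain ⟨cap, hcap⟩ : ∃ cap : Fin 3 → ℕ, ∀ i, cap i = (pt p i).card - (wr F (C i)).card :=
    ⟨_, fun _ => rfl⟩
  have hc0 := hcap 0
  have hc1 := hcap 1
  have hc2 := hcap 2
  have hsum : ∑ i, cap i = cap 0 + cap 1 + cap 2 := Fin.sum_univ_three cap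
  have hne : (Q1 ∪ Q2).Nonempty := by
    have h1 := P.q2
    have h2 : 0 < Q2.card := by
      norm_num at hxh
      omega
    obtain ⟨b, hb⟩ := Finset.card_pos.1 h2
    exact ⟨b, Finset.mem_union_right _ hb⟩
  rw [hcard, hparts] at hpar
  rw [hcard, hparts, Nat.even_iff] at hev
  obtain ⟨τ, hτ1, hτ2⟩ := hT (Q1 ∪ Q2) (wr F (Q1 ∪ Q2)) cap (Finset.filter_subset _ _) hne
    (by rw [hsum]; omega) (by rw [hsum, Nat.even_iff]; omega)
  refine ⟨τ, ⟨?_, ?_, ?_⟩⟩
  · intro b hb
    rw [hτ1 b hb, mem_wr]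
    exact ⟨fun h => h.2, fun h => ⟨hb, h⟩⟩
  · intro i
    have h1 := (hτ2 i).1
    have h2 := hcap i
    have h3 := hle i
    omega
  · intro i
    have h1 := (hτ2 i).1
    have h1' := (hτ2 i).2
    have h2 := hcap i
    have h3 := hle i
    rw [Nat.even_iff] at h1' ⊢
    omega

end Pool.Agent.Work.MP_db9399_lt.helper20
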